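import Pool.Agent.H.MP_4c5958_al.Shift

/-!
# The essential dimension of `PGL_5` is at least three over many fields
-/

set_option autoImplicit false

noncomputable section

open scoped TensorProduct

namespace Pool.Agent.Results.MP_4c5958_al.EdAtLeastThree

open Pool.Agent.H.MP_4c5958_al

universe u

/-- `A` is a central simple `K`-algebra of degree `5`, i.e. of dimension `25` over `K`. -/
structure IsCSA5 (K A : Type u) [Field K] [Ring A] [Algebra K A] : Prop where
  central : Algebra.IsCentral K A
  simple : IsSimpleRing A
  dim : Module.finrank K A = 25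

/-- The intermediate field `L` of `K/F` is a field of definition of the `K`-algebra `A`: there is a
central simple `L`-algebra `A₀` of degree `5` with `K ⊗_L A₀ ≅ A` over `K`. -/
def IsFieldOfDefinition (F K A : Type u) [Field F] [Field K] [Algebra F K] [Ring A] [Algebra K A]
    (L : IntermediateField F K) : Prop :=
  ∃ (A₀ : Type u) (_ : Ring A₀) (_ : Algebra L A₀), IsCSA5 L A₀ ∧ Nonempty (K ⊗[L] A₀ ≃ₐ[K] A)

/-- The essential dimension over `F` of the `K`-algebra `A`: the least transcendence degree over
`F` of a field of definition of `A`. -/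
def ed (F K A : Type u) [Field F] [Field K] [Algebra F K] [Ring A] [Algebra K A] : ℕ∞ :=
  ⨅ (L : IntermediateField F K) (_ : IsFieldOfDefinition F K A L),
    Cardinal.toENat (Algebra.trdeg F L)

/-- The essential dimension of `PGL_5` over `F`: the supremum of the essential dimensions of the
central simple algebras of degree `5` over field extensions of `F`. -/
def edPGL5 (F : Type u) [Field F] : ℕ∞ :=
  ⨆ (K : Type u) (_ : Field K) (_ : Algebra F K) (A : Type u) (_ : Ring A) (_ : Algebra K A)
    (_ : IsCSA5 K A), ed F K A

section

variable (F : Type u) [Field F]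

lemma isCSA5_SkD : IsCSA5 (KK (shift F)) (SkD (shift F)) :=
  ⟨inferInstance, isSimpleRing_SkD _, finrank_SkD _⟩

lemma descent (hF : ∀ x : F, x ^ 2 + x - 1 ≠ 0) (L : IntermediateField F (KK (shift F)))
    (hL : IsFieldOfDefinition F (KK (shift F)) (SkD (shift F)) L) : 3 ≤ Algebra.trdeg F L := by
  obtain ⟨B, _, _, hB, ⟨e⟩⟩ := hL
  have := hB.central
  have := hB.simple
  have hdim := hB.dim
  let _ : Algebra F B := Algebra.compHom B (algebraMap F L)
  have : IsScalarTower F L B := IsScalarTower.of_algebraMap_eq fun _ => rfl
  let i : B →ₐ[L] (KK (shift F)) ⊗[L] B := Algebra.TensorProduct.includeRight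
  let g : B →ₐ[F] SkD (shift F) :=
    { toRingHom := (e : (KK (shift F)) ⊗[L] B →+* SkD (shift F)).comp (i : B →+* _)
      commutes' := by
        intro c
        show e (i (algebraMap F B c)) = _
        have h1 : i (algebraMap F B c) =
            algebraMap (KK (shift F)) ((KK (shift F)) ⊗[L] B) (algebraMap F (KK (shift F)) c) := by
          rw [IsScalarTower.algebraMap_apply F L B, AlgHom.commutes]
          rfl
        rw [h1, AlgEquiv.commutes, ← IsScalarTower.algebraMap_apply] }
  have hg : Function.Injective g := g.toRingHom.injective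
  have : IsDomain B := by
    have : NoZeroDivisors B := by
      refine ⟨fun {a b} hab => ?_⟩
      have h1 : g a * g b = 0 := by rw [← map_mul, hab, map_zero]
      rcases mul_eq_zero.mp h1 with h | h
      · left; exact hg (h.trans (map_zero g).symm)
      · right; exact hg (h.trans (map_zero g).symm)
    exact NoZeroDivisors.to_isDomain B
  have : FiniteDimensional L B := Module.finite_of_finrank_pos (by rw [hdim]; norm_num)
  let _ : DivisionRing B := divisionRingOfFiniteDimensional L B
  exact SV.final ((svD (shift F)).comap g hg) hF (shift_pow5 F) hdim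

end

/-- For every field `F` in which `X² + X - 1` has no root (equivalently `char F ≠ 5` and
`ζ₅ + ζ₅⁻¹ ∉ F`) the essential dimension of `PGL_5` over `F` is at least `3`. -/
theorem result (F : Type u) [Field F] (hF : ∀ x : F, x ^ 2 + x - 1 ≠ 0) : 3 ≤ edPGL5 F := by
  refine le_iSup_of_le (KK (shift F)) <| le_iSup_of_le inferInstance <|
    le_iSup_of_le inferInstance <| le_iSup_of_le (SkD (shift F)) <| le_iSup_of_le inferInstance <|
    le_iSup_of_le inferInstance <| le_iSup_of_le (isCSA5_SkD F) ?_
  refine le_iInf fun L => le_iInf fun hL => ?_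
  rw [Cardinal.ofNat_le_toENat]
  exact descent F hF L hL

end Pool.Agent.Results.MP_4c5958_al.EdAtLeastThree
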