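import Pool.Agent.H.MP_4c5958_al.SO.Main
import Pool.Agent.H.MP_4c5958_al.SO.ChM
import Pool.Agent.H.MP_4c5958_al.SQ.Main

/-!
# Essential dimension of the algebras of degree five with a solvable maximal subfield
-/

set_option autoImplicit false

noncomputable section

open scoped TensorProduct

namespace Pool.Agent.Results.MP_4c5958_al.SolvableSubfields

universe u

/-- `A` is a central simple `K`-algebra of degree `5`, i.e. of dimension `25` over `K`. -/
structure IsCSA5 (K A : Type u) [Field K] [Ring A] [Algebra K A] : Prop where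
  central : Algebra.IsCentral K A
  simple : IsSimpleRing A
  dim : Module.finrank K A = 25

/-- The intermediate field `L` of `K/F` is a field of definition of the `K`-algebra `A`: there is a
central simple `L`-algebra `A₀` of degree `5` with `K ⊗_L A₀ ≅ A` over `K`. -/
def IsFieldOfDefinition (F K A : Type u) [Field F] [Field K] [Algebra F K] [Ring A] [Algebra K A]
    (L : IntermediateField F K) : Prop :=
  ∃ (A₀ : Type u) (_ : Ring A₀) (_ : Algebra L A₀), IsCSA5 L A₀ ∧ Nonempty (K ⊗[L] A₀ ≃ₐ[K] A)

/-- The essential dimension over `F` of the `K`-algebra `A`: the least transcendence degree over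
`F` of a field of definition of `A`. -/
def ed (F K A : Type u) [Field F] [Field K] [Algebra F K] [Ring A] [Algebra K A] : ℕ∞ :=
  ⨅ (L : IntermediateField F K) (_ : IsFieldOfDefinition F K A L),
    Cardinal.toENat (Algebra.trdeg F L)

/-- Let `K/F` be any field extension and `A` a central simple `K`-algebra of degree `5` that contains
an element `x` whose minimal polynomial over `K` is irreducible of degree `5`, separable and has a
solvable Galois group `G`. Then the essential dimension of `A` over `F` is at most `4`. It is at most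
`3` if `G` does not have exactly `20` elements, and even at most `2` if, moreover, `X ^ 2 + X - 1` has
a root in `K`. If `G` has exactly `20` elements, it is at most `3` if `X ^ 2 + X - 1` has a root in the
splitting field of the minimal polynomial but none in `K`. It is at most `2` if the characteristic
of `F` is `5`. -/
theorem result (F K A : Type u) [Field F] [Field K] [Algebra F K] [Ring A] [Algebra K A]
    (hA : IsCSA5 K A) (x : A) (hirr : Irreducible (minpoly K x))
    (hdeg : (minpoly K x).natDegree = 5) (hsep : (minpoly K x).Separable)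
    (hsol : Group.IsSolvable (minpoly K x).Gal) :
    ed F K A ≤ 4 ∧ (Nat.card (minpoly K x).Gal ≠ 20 → ed F K A ≤ 3) ∧
      (Nat.card (minpoly K x).Gal ≠ 20 → (∃ ρ : K, ρ ^ 2 + ρ = 1) → ed F K A ≤ 2) ∧
      (Nat.card (minpoly K x).Gal = 20 → (∃ ρ : (minpoly K x).SplittingField, ρ ^ 2 + ρ = 1) →
        (¬ ∃ ρ : K, ρ ^ 2 + ρ = 1) → ed F K A ≤ 3) ∧
      (CharP F 5 → ed F K A ≤ 2) := by
  have := hA.central
  have := hA.simple
  have key : ∀ (L : IntermediateField F K) (n : ℕ),
      (∃ (A₀ : Type u) (_ : Ring A₀) (_ : Algebra L A₀), (Algebra.IsCentral L A₀ ∧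
        IsSimpleRing A₀ ∧ Module.finrank L A₀ = 25) ∧ Nonempty (K ⊗[L] A₀ ≃ₐ[K] A)) →
      Algebra.trdeg F L ≤ (n : Cardinal.{u}) → ed F K A ≤ (n : ℕ∞) := by
    rintro L n ⟨A₀, _, _, ⟨h1, h2, h3⟩, h4⟩ h5
    have h6 : ed F K A ≤ Cardinal.toENat (Algebra.trdeg F L) :=
      iInf₂_le L ⟨A₀, inferInstance, inferInstance, ⟨h1, h2, h3⟩, h4⟩
    exact h6.trans ((Cardinal.toENat.monotone' h5).trans
      (le_of_eq (map_natCast Cardinal.toENat _)))
  obtain ⟨L, h1, h2⟩ :=
    Pool.Agent.H.MP_4c5958_al.SO.main (F := F) hA.dim x hirr hdeg hsep hsol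
  have h7 := key L _ h1 h2
  refine ⟨h7.trans ?_, fun hne => h7.trans ?_, fun hne ⟨ρ, hρ⟩ => ?_, fun hc ⟨ρ, hρ⟩ hK => ?_,
    fun hch => ?_⟩
  · split_ifs
    · exact le_rfl
    · exact Nat.cast_le.2 (by norm_num : 3 ≤ 4)
  · rw [if_neg hne]
    exact le_rfl
  · obtain ⟨L', h3, h4⟩ :=
      Pool.Agent.H.MP_4c5958_al.SQ.main_two (F := F) hA.dim x hirr hdeg hsep hsol hne ρ hρ
    exact key L' 2 h3 h4
  · obtain ⟨L', h3, h4⟩ :=
      Pool.Agent.H.MP_4c5958_al.SQ.main_three (F := F) hA.dim x hirr hdeg hsep hsol hc ρ hρ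
        fun c hc' => hK ⟨c, hc'⟩
    exact key L' 3 h3 h4
  · obtain ⟨L', h3, h4⟩ :=
      Pool.Agent.H.MP_4c5958_al.SO.main_char (F := F) hA.dim x hirr hdeg hsep hsol
    exact key L' 2 h3 h4

end Pool.Agent.Results.MP_4c5958_al.SolvableSubfields
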